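import Pool.Agent.N206.CG.Stm2

/-!
# Project CG (helper206): automorphisms of the square (helper37)
-/

set_option autoImplicit false

namespace Pool.Agent.N37.CG

open Pool.Agent.N206.CG

section

variable {D : Type} [Group D]

theorem key (hNC : ∀ N M : Subgroup D, N.Normal → M.Normal → N ≠ ⊥ → M ≠ ⊥ →
    ∃ a ∈ N, ∃ b ∈ M, a * b ≠ b * a) (hZ : ∀ d : D, (∀ e, d * e = e * d) → d = 1)
    (θ : MulAut (D × D)) (ι : D →* D × D) (hι : Function.Injective ι)
    (hn : ∀ q g, ∃ g', q * ι g * q⁻¹ = ι g') :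
    (∀ g, (θ (ι g)).1 = 1) ∨ (∀ g, (θ (ι g)).2 = 1) := by
  let f1 : D →* D := (MonoidHom.fst D D).comp ((θ : (D × D) ≃* (D × D)).toMonoidHom.comp ι)
  let f2 : D →* D := (MonoidHom.snd D D).comp ((θ : (D × D) ≃* (D × D)).toMonoidHom.comp ι)
  have hf1 : ∀ g, f1 g = (θ (ι g)).1 := fun g => rfl
  have hf2 : ∀ g, f2 g = (θ (ι g)).2 := fun g => rfl
  have hcomm : ∀ a ∈ f2.ker, ∀ b ∈ f1.ker, a * b = b * a := by
    intro a ha b hb
    rw [MonoidHom.mem_ker, hf2] at ha
    rw [MonoidHom.mem_ker, hf1] at hb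
    apply hι
    apply θ.injective
    rw [map_mul, map_mul, map_mul, map_mul]
    refine Prod.ext ?_ ?_
    · rw [Prod.fst_mul, Prod.fst_mul, hb, mul_one, one_mul]
    · rw [Prod.snd_mul, Prod.snd_mul, ha, mul_one, one_mul]
  have hcom : ∀ p : D × D, ∀ g : D, ∃ c : D,
      θ (ι c) = p * θ (ι g) * p⁻¹ * (θ (ι g))⁻¹ := by
    intro p g
    obtain ⟨q, rfl⟩ := θ.surjective p
    obtain ⟨g', hg'⟩ := hn q g
    refine ⟨g' * g⁻¹, ?_⟩
    rw [map_mul, ← hg', map_inv]
    simp only [map_mul, map_inv]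
  by_cases h2 : f2.ker = ⊥
  · left
    intro g
    apply hZ
    intro e
    obtain ⟨c, hc⟩ := hcom (e, 1) g
    have h3 : c ∈ f2.ker := by
      rw [MonoidHom.mem_ker, hf2, hc]
      simp
    rw [h2, Subgroup.mem_bot] at h3
    rw [h3, map_one, map_one] at hc
    have h4 := congrArg Prod.fst hc
    simp only [Prod.fst_mul, Prod.fst_inv, Prod.fst_one] at h4
    rw [eq_comm, mul_inv_eq_one, mul_inv_eq_iff_eq_mul] at h4
    exact h4.symm
  · by_cases h1 : f1.ker = ⊥
    · right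
      intro g
      apply hZ
      intro e
      obtain ⟨c, hc⟩ := hcom (1, e) g
      have h3 : c ∈ f1.ker := by
        rw [MonoidHom.mem_ker, hf1, hc]
        simp
      rw [h1, Subgroup.mem_bot] at h3
      rw [h3, map_one, map_one] at hc
      have h4 := congrArg Prod.snd hc
      simp only [Prod.snd_mul, Prod.snd_inv, Prod.snd_one] at h4
      rw [eq_comm, mul_inv_eq_one, mul_inv_eq_iff_eq_mul] at h4
      exact h4.symm
    · obtain ⟨a, ha, b, hb, hab⟩ := hNC f2.ker f1.ker inferInstance inferInstance h2 h1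
      exact absurd (hcomm a ha b hb) hab

theorem aut_prod [Nontrivial D] (hNC : ∀ N M : Subgroup D, N.Normal → M.Normal → N ≠ ⊥ → M ≠ ⊥ →
    ∃ a ∈ N, ∃ b ∈ M, a * b ≠ b * a) (hZ : ∀ d : D, (∀ e, d * e = e * d) → d = 1)
    (θ : MulAut (D × D)) : ∃ α β : MulAut D,
      (∀ x y, θ (x, y) = (α x, β y)) ∨ (∀ x y, θ (x, y) = (β y, α x)) := by
  have k1 := key hNC hZ θ (MonoidHom.inl D D) (fun a b h => (Prod.ext_iff.1 h).1)
    (fun q g => ⟨q.1 * g * q.1⁻¹, by simp [Prod.ext_iff]⟩)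
  have k2 := key hNC hZ θ (MonoidHom.inr D D) (fun a b h => (Prod.ext_iff.1 h).2)
    (fun q g => ⟨q.2 * g * q.2⁻¹, by simp [Prod.ext_iff]⟩)
  simp only [MonoidHom.inl_apply, MonoidHom.inr_apply] at k1 k2
  have hsp : ∀ x y, θ (x, y) = θ (x, 1) * θ (1, y) := by
    intro x y
    rw [← map_mul]
    simp
  obtain ⟨e, he⟩ := exists_ne (1 : D)
  have hmk : ∀ f : D →* D, Function.Bijective f → ∃ α : MulAut D, ∀ x, α x = f x :=
    fun f hf => ⟨MulEquiv.ofBijective f hf, fun x => rfl⟩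
  rcases k1 with k1 | k1 <;> rcases k2 with k2 | k2
  · exfalso
    obtain ⟨⟨x, y⟩, hxy⟩ := θ.surjective (e, 1)
    have h := congrArg Prod.fst hxy
    rw [hsp, Prod.fst_mul, k1, k2, one_mul] at h
    exact he h.symm
  · -- swapped
    let a : D →* D := (MonoidHom.snd D D).comp
      ((θ : (D × D) ≃* (D × D)).toMonoidHom.comp (MonoidHom.inl D D))
    let b : D →* D := (MonoidHom.fst D D).comp
      ((θ : (D × D) ≃* (D × D)).toMonoidHom.comp (MonoidHom.inr D D))
    have ha : ∀ x, θ (x, 1) = (1, a x) := fun x => Prod.ext (k1 x) rfl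
    have hb : ∀ y, θ (1, y) = (b y, 1) := fun y => Prod.ext rfl (k2 y)
    have hθ : ∀ x y, θ (x, y) = (b y, a x) := by
      intro x y
      rw [hsp, ha, hb]
      simp
    have ha' : Function.Bijective a := by
      constructor
      · intro x x' h
        have h1 : θ (x, 1) = θ (x', 1) := by rw [ha, ha, h]
        exact (Prod.ext_iff.1 (θ.injective h1)).1
      · intro z
        obtain ⟨⟨x, y⟩, hxy⟩ := θ.surjective (1, z)
        rw [hθ] at hxy
        exact ⟨x, (Prod.ext_iff.1 hxy).2⟩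
    have hb' : Function.Bijective b := by
      constructor
      · intro x x' h
        have h1 : θ (1, x) = θ (1, x') := by rw [hb, hb, h]
        exact (Prod.ext_iff.1 (θ.injective h1)).2
      · intro z
        obtain ⟨⟨x, y⟩, hxy⟩ := θ.surjective (z, 1)
        rw [hθ] at hxy
        exact ⟨y, (Prod.ext_iff.1 hxy).1⟩
    obtain ⟨α, hα⟩ := hmk a ha'
    obtain ⟨β, hβ⟩ := hmk b hb'
    exact ⟨α, β, Or.inr fun x y => by rw [hθ, hα, hβ]⟩
  · let a : D →* D := (MonoidHom.fst D D).comp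
      ((θ : (D × D) ≃* (D × D)).toMonoidHom.comp (MonoidHom.inl D D))
    let b : D →* D := (MonoidHom.snd D D).comp
      ((θ : (D × D) ≃* (D × D)).toMonoidHom.comp (MonoidHom.inr D D))
    have ha : ∀ x, θ (x, 1) = (a x, 1) := fun x => Prod.ext rfl (k1 x)
    have hb : ∀ y, θ (1, y) = (1, b y) := fun y => Prod.ext (k2 y) rfl
    have hθ : ∀ x y, θ (x, y) = (a x, b y) := by
      intro x y
      rw [hsp, ha, hb]
      simp
    have ha' : Function.Bijective a := by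
      constructor
      · intro x x' h
        have h1 : θ (x, 1) = θ (x', 1) := by rw [ha, ha, h]
        exact (Prod.ext_iff.1 (θ.injective h1)).1
      · intro z
        obtain ⟨⟨x, y⟩, hxy⟩ := θ.surjective (z, 1)
        rw [hθ] at hxy
        exact ⟨x, (Prod.ext_iff.1 hxy).1⟩
    have hb' : Function.Bijective b := by
      constructor
      · intro x x' h
        have h1 : θ (1, x) = θ (1, x') := by rw [hb, hb, h]
        exact (Prod.ext_iff.1 (θ.injective h1)).2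
      · intro z
        obtain ⟨⟨x, y⟩, hxy⟩ := θ.surjective (1, z)
        rw [hθ] at hxy
        exact ⟨y, (Prod.ext_iff.1 hxy).2⟩
    obtain ⟨α, hα⟩ := hmk a ha'
    obtain ⟨β, hβ⟩ := hmk b hb'
    exact ⟨α, β, Or.inl fun x y => by rw [hθ, hα, hβ]⟩
  · exfalso
    obtain ⟨⟨x, y⟩, hxy⟩ := θ.surjective (1, e)
    have h := congrArg Prod.snd hxy
    rw [hsp, Prod.snd_mul, k1, k2, one_mul] at h
    exact he h.symm

end

variable {L : Loc}

theorem nontriv (S : Sys L) : Nontrivial (S.D 0) := by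
  obtain ⟨x, -, y, -, hxy⟩ := L.X_two 0
  obtain ⟨g, hg⟩ := S.exists_rt 0 x y
  refine ⟨S.rt 0 g, 1, fun h => hxy ?_⟩
  rw [h, map_one, Equiv.Perm.one_apply] at hg
  exact hg

theorem t_AUTD {L : Loc} (S : Sys L) (h1 : S_NC S) (h2 : S_Z S) : S_AUTD S := by
  have := nontriv S
  intro θ
  exact aut_prod (h1 0) (h2 0) θ

theorem t_OUT2 {L : Loc} (S : Sys L) (h1 : S_OUT S) (h2 : S_AUTD S) : S_OUT2 S := by
  obtain ⟨F0, hfin, hF0, hall⟩ := h1
  let pc : MulAut (S.D 0) → MulAut (S.D 0) → MulAut (S.D 0 × S.D 0) := fun u v =>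
    MulEquiv.prodCongr u v
  let sw : MulAut (S.D 0 × S.D 0) := MulEquiv.prodComm
  have hpc : ∀ u v x y, pc u v (x, y) = (u x, v y) := fun u v x y => rfl
  have hsw : ∀ x y, sw (x, y) = (y, x) := fun x y => rfl
  refine ⟨Set.image2 pc F0 F0 ∪ Set.image2 (fun u v => pc u v * sw) F0 F0,
    (hfin.image2 _ hfin).union (hfin.image2 _ hfin), ?_, ?_⟩
  · rintro w (⟨u, hu, v, hv, rfl⟩ | ⟨u, hu, v, hv, rfl⟩) ⟨x, y⟩
    · rw [hpc, Subgroup.mem_prod, Subgroup.mem_prod]
      show x ∈ S.Hs ∧ y ∈ S.Hs ↔ u x ∈ S.Hs ∧ v y ∈ S.Hs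
      rw [← hF0 u hu, ← hF0 v hv]
    · show (x, y) ∈ UU S ↔ pc u v (sw (x, y)) ∈ UU S
      rw [hsw, hpc, Subgroup.mem_prod, Subgroup.mem_prod]
      show x ∈ S.Hs ∧ y ∈ S.Hs ↔ u y ∈ S.Hs ∧ v x ∈ S.Hs
      rw [← hF0 u hu, ← hF0 v hv]
      exact and_comm
  · intro θ hθ
    obtain ⟨α, β, h | h⟩ := h2 θ
    · have hα : ∀ h, h ∈ S.Hs ↔ α h ∈ S.Hs := by
        intro g
        have h3 := hθ (g, 1)
        rw [h, Subgroup.mem_prod, Subgroup.mem_prod] at h3
        simpa using h3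
      have hβ : ∀ h, h ∈ S.Hs ↔ β h ∈ S.Hs := by
        intro g
        have h3 := hθ (1, g)
        rw [h, Subgroup.mem_prod, Subgroup.mem_prod] at h3
        simpa using h3
      obtain ⟨u, hu, d, hd⟩ := hall α hα
      obtain ⟨v, hv, e, he⟩ := hall β hβ
      refine ⟨pc u v, Or.inl ⟨u, hu, v, hv, rfl⟩, (d, e), ?_⟩
      apply MulEquiv.ext
      rintro ⟨x, y⟩
      rw [h, hd, he]
      rfl
    · have hα : ∀ h, h ∈ S.Hs ↔ α h ∈ S.Hs := by
        intro g
        have h3 := hθ (g, 1)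
        rw [h, Subgroup.mem_prod, Subgroup.mem_prod] at h3
        simpa using h3
      have hβ : ∀ h, h ∈ S.Hs ↔ β h ∈ S.Hs := by
        intro g
        have h3 := hθ (1, g)
        rw [h, Subgroup.mem_prod, Subgroup.mem_prod] at h3
        simpa using h3
      obtain ⟨u, hu, d, hd⟩ := hall α hα
      obtain ⟨v, hv, e, he⟩ := hall β hβ
      refine ⟨pc v u * sw, Or.inr ⟨v, hv, u, hu, rfl⟩, (e, d), ?_⟩
      apply MulEquiv.ext
      rintro ⟨x, y⟩
      rw [h, hd, he]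
      rfl

theorem t_UCORE {L : Loc} (S : Sys L) (h : S_HCORE S) : S_UCORE S := by
  have hc : S.Hs.normalCore = ⊥ := h _ inferInstance (Subgroup.normalCore_le _)
  rw [S_UCORE, eq_bot_iff]
  rintro ⟨a, b⟩ hab
  have ha : a ∈ S.Hs.normalCore := by
    intro g
    have h3 := (hab (g, 1))
    rw [Subgroup.mem_prod] at h3
    simpa using h3.1
  have hb : b ∈ S.Hs.normalCore := by
    intro g
    have h3 := (hab (1, g))
    rw [Subgroup.mem_prod] at h3
    simpa using h3.2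
  rw [hc, Subgroup.mem_bot] at ha hb
  rw [Subgroup.mem_bot, ha, hb]
  rfl

theorem t_UNORM {L : Loc} (S : Sys L) (h : S_HNORM S) : S_UNORM S := by
  rintro ⟨d1, d2⟩ hd
  rw [Subgroup.mem_prod]
  refine ⟨h d1 fun g => ?_, h d2 fun g => ?_⟩
  · have h3 := hd (g, 1)
    rw [Subgroup.mem_prod, Subgroup.mem_prod] at h3
    simpa using h3
  · have h3 := hd (1, g)
    rw [Subgroup.mem_prod, Subgroup.mem_prod] at h3
    simpa using h3

end Pool.Agent.N37.CG
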